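import Pool.Agent.N822.TZ.Fin
import Pool.Agent.N822.TZ.Phi
import Pool.Agent.N196.TZ.HH2
import Pool.Agent.N861.TZ.TOEP
import Pool.Agent.N565.TZ.Low
import Pool.Agent.N225.TZ.Pres
import Pool.Agent.N14.TZ.TR
import Pool.Agent.N618.TZ.Erg
import Pool.Agent.N186.TZ.PR

/-!
There is a Toeplitz system with an ergodic invariant probability measure that is partially rigid
and not rigid.  The system is an orbit closure in the two-sided full shift on two symbols; the
measure is the image of the two-point Morse extension of the binary odometer: sequences with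
Toeplitz headers over the 2-adic integers whose free positions are filled by the Morse cocycle.

Authors of the parts: helper822, helper196, helper861, helper565, helper225, helper14,
helper618, helper186; the Toeplitz headers are those of helper289.
-/

set_option autoImplicit false

open MeasureTheory

namespace Pool.Agent.Results.MP_6420b1_an.PartiallyRigidNotRigid

open Pool.Agent.N822.TZ

theorem result : ∃ x : ℤ → Bool, IsToeplitz x ∧ ∃ μ : Measure (ℤ → Bool),
    IsProbabilityMeasure μ ∧ μ (orbitClosure x) = 1 ∧ Ergodic shift μ ∧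
      PartiallyRigid μ ∧ ¬ Rigid μ := by
  have hPHI : S_PHI := t_PHI
  have hTR : S_TR := Pool.Agent.N14.TZ.t_TR
  have hPRES : S_PRES := Pool.Agent.N225.TZ.t_PRES
  exact final Pool.Agent.N225.TZ.measurable_T_zpow
    (N861.TZ.t_TOEP Pool.Agent.N196.TZ.t_HH2)
    (Pool.Agent.N565.TZ.t_LOW hPHI)
    (Pool.Agent.N618.TZ.t_ERG hPHI hPRES hTR)
    (Pool.Agent.N186.TZ.PR.t_PR hPHI hTR)

end Pool.Agent.Results.MP_6420b1_an.PartiallyRigidNotRigid
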